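import Pool.Agent.Work.MP_96f494_lc.Uniform

/-!
One first-order formula defines the natural numbers in the ring of totally real algebraic integers
fixed by `σ`, for almost all `σ` in the Galois group of the field of totally real algebraic
numbers; so for almost all `σ` this ring has an undecidable first-order theory.
-/

namespace Pool.Agent.Results.MP_96f494_lc.UndecidableByNat

open MeasureTheory FirstOrder Pool.Agent.Work.MP_96f494_lc

/-- The normalised Haar measure on a compact group, on the Borel sets. -/
noncomputable def normalisedHaar (G : Type) [Group G] [TopologicalSpace G] [IsTopologicalGroup G]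
    [CompactSpace G] : @Measure G (borel G) :=
  @Measure.haarMeasure G _ _ _ (borel G) (@BorelSpace.mk G _ (borel G) rfl) ⊤

/-- The ring of algebraic integers of `K` fixed by `σ`. -/
def fixedIntegers (K : Type) [Field K] [CharZero K] (σ : K ≃ₐ[ℚ] K) : Subring K where
  carrier := {x | IsIntegral ℤ x ∧ σ x = x}
  mul_mem' := fun hx hy => ⟨hx.1.mul hy.1, by rw [map_mul, hx.2, hy.2]⟩
  add_mem' := fun hx hy => ⟨hx.1.add hy.1, by rw [map_add, hx.2, hy.2]⟩
  one_mem' := ⟨isIntegral_one, map_one σ⟩
  zero_mem' := ⟨isIntegral_zero, map_zero σ⟩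
  neg_mem' := fun hx => ⟨hx.1.neg, by rw [map_neg, hx.2]⟩

/-- The formula `ψ(x)` of the language of rings, without parameters, defines the set of natural
numbers in the ring `R`. -/
def DefinesNat (ψ : Language.ring.Formula Unit) (R : Type) [CommRing R] : Prop :=
  ∀ x : R, @Language.Formula.Realize Language.ring R (Ring.compatibleRingOfRing R).toStructure
    Unit ψ (fun _ => x) ↔ ∃ n : ℕ, x = n

/-- There is one formula `ψ` such that for almost all automorphisms `σ` of the Galois extension
`K` of `ℚ`, with respect to the normalised Haar measure, `ψ` defines the set of natural numbers in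
the ring of algebraic integers of `K` fixed by `σ`, and this ring has an undecidable first-order
theory. -/
def AlmostAllUndecByNat (K : Type) [Field K] [CharZero K] [IsGalois ℚ K] : Prop :=
  ∃ ψ : Language.ring.Formula Unit, ∀ᵐ σ ∂(normalisedHaar (K ≃ₐ[ℚ] K)),
    DefinesNat ψ (fixedIntegers K σ) ∧ ¬ HasDecidableTheory (fixedIntegers K σ)

/-- There is one formula which for almost all `σ ∈ Gal(ℚ^tr/ℚ)`, with respect to the normalised
Haar measure, defines `ℕ` in `ℤ^tr(σ)`; and the first-order theory of `ℤ^tr(σ)` in the language of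
rings is undecidable. -/
theorem result : AlmostAllUndecByNat Qtr := by
  obtain ⟨ψ, hψ⟩ := Uni.ae_formula
  refine ⟨ψ, ?_⟩
  show ∀ᵐ σ ∂haarG, DefinesNat ψ (Ztr σ) ∧ ¬ HasDecidableTheory (Ztr σ)
  filter_upwards [hψ, ae_main] with σ h1 h2
  obtain ⟨l, h3, h4⟩ := h2
  exact ⟨h1, undecidable h3 h4⟩

end Pool.Agent.Results.MP_96f494_lc.UndecidableByNat
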